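import Pool.Agent.LE.StmtsQY

/-!
Squad LQY, row TMZ: the total mass on the lattice.
-/

set_option autoImplicit false

open MeasureTheory ProbabilityTheory Function Filter

open scoped ENNReal BigOperators Topology NNReal ComplexOrder Matrix

noncomputable section

namespace Pool.Agent.LE.QY.H16

open Pool.Agent.Anderson hiding box mem_box card_box
open Pool.Agent.Loc Pool.Agent.Mob Pool.Agent.Helper54.Bal
  Pool.Agent.Helper96.EXP Pool.Agent.BED
open Pool.Agent.LE.MN Pool.Agent.LE.CL Pool.Agent.LE.IR Pool.Agent.LE.QD Pool.Agent.LE.QF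
open Pool.Agent.LE.QY

variable {d : ℕ}

/-- the total mass is the imaginary part of the Green function -/
theorem sum_rh (V : Site d → ℝ) {T E : ℝ} (hT : 0 < T) :
    ∑' x : Site d, ENNReal.ofReal (rh V T E x) =
      ENNReal.ofReal (G V ⟨E, 1 / T⟩ (del 0) 0).im := by
  have hz : (⟨E, 1 / T⟩ : ℂ).im ≠ 0 := (one_div_pos.2 hT).ne'
  have h1 : ∀ x, rh V T E x = ‖G V ⟨E, 1 / T⟩ (del 0) x‖ ^ 2 * T⁻¹ := fun x => div_eq_mul_inv _ _
  have h2 := L2.summable_sq (G V ⟨E, 1 / T⟩ (del 0))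
  have h3 : ∀ x, 0 ≤ rh V T E x := fun x => by rw [h1]; positivity
  have h4 : Summable fun x => rh V T E x := by
    simp only [h1]
    exact h2.mul_right _
  rw [← ENNReal.ofReal_tsum_of_nonneg h3 h4]
  congr 1
  simp only [h1]
  rw [tsum_mul_right, ← L2.norm_sq, im_G_del hz]
  show _ = 1 / T * _
  rw [one_div, mul_comm]

/-- the trivial bound -/
theorem im_le (V : Site d → ℝ) {T E : ℝ} (hT : 0 < T) :
    (G V ⟨E, 1 / T⟩ (del 0) 0).im ≤ T := by
  have hz : (⟨E, 1 / T⟩ : ℂ).im ≠ 0 := (one_div_pos.2 hT).ne'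
  have h1 := im_G_del (V := V) hz
  have h2 : (G V ⟨E, 1 / T⟩ (del 0) 0).im ≤ ‖G V ⟨E, 1 / T⟩ (del 0)‖ :=
    ((le_abs_self _).trans (Complex.abs_im_le_norm _)).trans
      (lp.norm_apply_le_norm (by norm_num) _ _)
  have h3 : (⟨E, 1 / T⟩ : ℂ).im = 1 / T := rfl
  rw [h3] at h1
  have h4 := norm_nonneg (G V ⟨E, 1 / T⟩ (del 0))
  have h5 : ‖G V ⟨E, 1 / T⟩ (del 0)‖ ≤ T := by
    by_contra hcon
    rw [not_le] at hcon
    have h6 : T * ‖G V ⟨E, 1 / T⟩ (del 0)‖ < ‖G V ⟨E, 1 / T⟩ (del 0)‖ ^ 2 := by nlinarith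
    have h7 : T * (1 / T * ‖G V ⟨E, 1 / T⟩ (del 0)‖ ^ 2) = ‖G V ⟨E, 1 / T⟩ (del 0)‖ ^ 2 := by
      field_simp
    have h8 : T * (G V ⟨E, 1 / T⟩ (del 0) 0).im ≤ T * ‖G V ⟨E, 1 / T⟩ (del 0)‖ := by gcongr
    rw [h1, h7] at h8
    linarith
  exact h2.trans h5

theorem im_nonneg' (V : Site d → ℝ) {T E : ℝ} (hT : 0 < T) :
    0 ≤ (G V ⟨E, 1 / T⟩ (del 0) 0).im := by
  have hz : (⟨E, 1 / T⟩ : ℂ).im ≠ 0 := (one_div_pos.2 hT).ne'
  rw [im_G_del hz]
  show 0 ≤ 1 / T * _
  positivity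

/-- bounds of an integral from bounds outside of a set of small outer measure -/
theorem bounds {Ω : Type} [MeasurableSpace Ω] (μ : Measure Ω) [IsProbabilityMeasure μ]
    (f : Ω → ℝ) (B : Set Ω) {K K' T δ : ℝ} (hK' : 0 ≤ K') (hK : 0 ≤ K) (hT : 0 ≤ T)
    (hB : μ B ≤ ENNReal.ofReal δ) (hδ : δ ≤ 1 / 2) (hδT : T * δ ≤ 1)
    (h0 : ∀ V, f V ≤ T) (h1 : ∀ V, V ∉ B → K' ≤ f V ∧ f V ≤ K) :
    ENNReal.ofReal (K' / 2) ≤ ∫⁻ V, ENNReal.ofReal (f V) ∂μ ∧
      ∫⁻ V, ENNReal.ofReal (f V) ∂μ ≤ ENNReal.ofReal (K + 1) := by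
  have hm := measurableSet_toMeasurable μ B
  have hB' : μ (toMeasurable μ B) ≤ ENNReal.ofReal δ := by rw [measure_toMeasurable]; exact hB
  have hsub := subset_toMeasurable μ B
  constructor
  · calc ENNReal.ofReal (K' / 2) = ENNReal.ofReal K' * ENNReal.ofReal (1 / 2) := by
          rw [← ENNReal.ofReal_mul hK']
          congr 1
          ring
      _ ≤ ENNReal.ofReal K' * μ (toMeasurable μ B)ᶜ := by
          gcongr
          rw [prob_compl_eq_one_sub hm]
          refine le_trans ?_ (tsub_le_tsub_left (hB'.trans (ENNReal.ofReal_le_ofReal hδ)) 1)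
          rw [← ENNReal.ofReal_one, ← ENNReal.ofReal_sub _ (by norm_num)]
          apply ENNReal.ofReal_le_ofReal
          norm_num
      _ = ∫⁻ V, (toMeasurable μ B)ᶜ.indicator (fun _ => ENNReal.ofReal K') V ∂μ := by
          rw [lintegral_indicator_const hm.compl]
      _ ≤ ∫⁻ V, ENNReal.ofReal (f V) ∂μ := by
          refine lintegral_mono fun V => ?_
          by_cases hV : V ∈ (toMeasurable μ B)ᶜ
          · rw [Set.indicator_of_mem hV]
            exact ENNReal.ofReal_le_ofReal (h1 V fun h => hV (hsub h)).1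
          · rw [Set.indicator_of_notMem hV]
            exact zero_le
  · calc ∫⁻ V, ENNReal.ofReal (f V) ∂μ
        ≤ ∫⁻ V, (ENNReal.ofReal K +
            (toMeasurable μ B).indicator (fun _ => ENNReal.ofReal T) V) ∂μ := by
          refine lintegral_mono fun V => ?_
          by_cases hV : V ∈ toMeasurable μ B
          · simp only [Set.indicator_of_mem hV]
            exact (ENNReal.ofReal_le_ofReal (h0 V)).trans le_add_self
          · simp only [Set.indicator_of_notMem hV, add_zero]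
            exact ENNReal.ofReal_le_ofReal (h1 V fun h => hV (hsub h)).2
      _ = ENNReal.ofReal K + ENNReal.ofReal T * μ (toMeasurable μ B) := by
          rw [lintegral_add_left measurable_const, lintegral_const, measure_univ, mul_one,
            lintegral_indicator_const hm]
      _ ≤ ENNReal.ofReal K + ENNReal.ofReal T * ENNReal.ofReal δ := by gcongr
      _ ≤ ENNReal.ofReal K + ENNReal.ofReal 1 := by
          rw [← ENNReal.ofReal_mul hT]
          gcongr
      _ = ENNReal.ofReal (K + 1) := (ENNReal.ofReal_add hK zero_le_one).symm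

theorem tmz (loc : LocStmt) : TmzStmt := by
  intro d a hd ha
  obtain ⟨θ, c, hθ, hc, hc4, h⟩ := loc d a hd ha
  obtain ⟨c', hc'⟩ : ∃ c', c' = min (c / 4) ((c / 4) ^ (1 / θ)) := ⟨_, rfl⟩
  have hc'0 : 0 < c' := by rw [hc']; exact lt_min (by positivity) (by positivity)
  have hc'1 : c' ≤ c / 4 := by rw [hc']; exact min_le_left _ _
  have hc'2 : c' ≤ (c / 4) ^ (1 / θ) := by rw [hc']; exact min_le_right _ _
  refine ⟨θ / 2, c', by positivity, hc'0, by linarith, ?_⟩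
  intro σ E T hσ hσc hE hT1 hT2
  have hs0 : 0 < |σ| := abs_pos.2 hσ
  have hs1 : |σ| ≤ 1 := by linarith
  have hT0 : 0 < T := lt_of_lt_of_le (by positivity) hT1
  have hmono : |σ| ^ (-(θ / 2)) ≤ |σ| ^ (-θ) :=
    Real.rpow_le_rpow_of_exponent_ge hs0 hs1 (by linarith)
  obtain ⟨m, hm1, hm2, hm3, hm4⟩ := h σ E T hσ (by linarith) hE hT1
    (hT2.trans (Real.exp_le_exp.2 hmono))
  have hsθ : |σ| ^ θ ≤ c / 4 := by
    have h1 : |σ| ^ θ ≤ ((c / 4) ^ (1 / θ)) ^ θ :=
      Real.rpow_le_rpow hs0.le (hσc.trans hc'2) hθ.le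
    rwa [← Real.rpow_mul (by positivity), one_div_mul_cancel hθ.ne', Real.rpow_one] at h1
  -- the value of the probability
  have hbig : 1 ≤ |σ| ^ (-θ) := Real.one_le_rpow_of_pos_of_le_one_of_nonpos hs0 hs1 (by linarith)
  have hδ : Real.exp (-(|σ| ^ (-θ))) ≤ 1 / 2 := by
    have h1 : Real.exp (-(|σ| ^ (-θ))) ≤ Real.exp (-1) := Real.exp_le_exp.2 (by linarith)
    have h2 : Real.exp (-1) ≤ 1 / 2 := by
      rw [Real.exp_neg, one_div]
      have := Real.add_one_le_exp (1 : ℝ)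
      exact inv_anti₀ (by norm_num) (by linarith)
    linarith
  have hδT : T * Real.exp (-(|σ| ^ (-θ))) ≤ 1 := by
    calc T * Real.exp (-(|σ| ^ (-θ)))
        ≤ Real.exp (|σ| ^ (-(θ / 2))) * Real.exp (-(|σ| ^ (-θ))) := by gcongr
      _ = Real.exp (|σ| ^ (-(θ / 2)) + -(|σ| ^ (-θ))) := (Real.exp_add _ _).symm
      _ ≤ Real.exp 0 := Real.exp_le_exp.2 (by linarith)
      _ = 1 := Real.exp_zero
  have hb := bounds (PP d (gl σ)) (fun V => (G V ⟨E, 1 / T⟩ (del 0) 0).im) _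
    (K := 1 / c + c / 2) (K' := c / 2) (T := T) (by positivity) (by positivity) hT0.le
    (hm4 0) hδ hδT (fun V => im_le V hT0) (fun V hV => by
      have hV' := not_not.1 hV
      have h0 : ((sd (0 : Site d) 0 : ℕ) : ℝ) ≤ T := by
        have : sd (0 : Site d) 0 = 0 := by
          unfold sd
          simp
        rw [this, Nat.cast_zero]
        exact hT0.le
      have h1 := hV' 0 0 h0 h0
      have h2 : ‖G V ⟨E, 1 / T⟩ (del 0) 0 - m‖ ≤ c / 2 := by
        calc ‖G V ⟨E, 1 / T⟩ (del 0) 0 - m‖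
            = ‖(G V ⟨E, 1 / T⟩ (del 0) 0 -
                G (0 : Site d → ℝ) (⟨E, 1 / T⟩ + (σ : ℂ) ^ 2 * m) (del 0) 0) -
              (m - G (0 : Site d → ℝ) (⟨E, 1 / T⟩ + (σ : ℂ) ^ 2 * m) (del 0) 0)‖ := by
              congr 1
              ring
          _ ≤ |σ| ^ θ + |σ| ^ θ := (norm_sub_le _ _).trans (add_le_add h1 hm3)
          _ ≤ c / 2 := by linarith
      have h3 := (Complex.abs_im_le_norm (G V ⟨E, 1 / T⟩ (del 0) 0 - m)).trans h2
      rw [Complex.sub_im, abs_le] at h3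
      have h4 : m.im ≤ 1 / c := ((le_abs_self _).trans (Complex.abs_im_le_norm _)).trans hm2
      exact ⟨by linarith [h3.1], by linarith [h3.2]⟩)
  simp only [sum_rh _ hT0]
  refine ⟨le_trans (ENNReal.ofReal_le_ofReal (by linarith)) hb.1,
    hb.2.trans (ENNReal.ofReal_le_ofReal ?_)⟩
  have h5 : 4 / c ≤ 1 / c' := by
    rw [div_le_div_iff₀ hc hc'0]
    linarith
  have h6 : 4 ≤ 1 / c := by
    rw [le_div_iff₀ hc]
    linarith
  have h7 : 4 / c = 4 * (1 / c) := by ring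
  linarith

end Pool.Agent.LE.QY.H16
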